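import Pool.Agent.J6H40.FVS.Ring

/-!
# The certificate for the ring of copies
-/

set_option autoImplicit false

namespace Pool.Agent.J6H40.FVS

open Pool.Agent.Results.MP_fa4488_co.DigirthFive

lemma low_sep {T : ℕ} {i j : Fin (T + 1)} {x : ℝ} (h0 : 10 * (i.val : ℝ) ≤ x)
    (h1 : x ≤ 10 * (i.val : ℝ) + 6) (h2 : 10 * (j.val : ℝ) ≤ x)
    (h3 : x ≤ 10 * (j.val : ℝ) + 6) : i = j := by
  have h4 : (10 : ℝ) * i.val ≤ 10 * j.val + 6 := by linarith
  have h5 : (10 : ℝ) * j.val ≤ 10 * i.val + 6 := by linarith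
  have h4' : 10 * i.val ≤ 10 * j.val + 6 := by exact_mod_cast h4
  have h5' : 10 * j.val ≤ 10 * i.val + 6 := by exact_mod_cast h5
  exact Fin.ext (by omega)

lemma low_sep' {T : ℕ} {i j : Fin (T + 1)} {x : ℝ} (h0 : 10 * (i.val : ℝ) + 6 < x)
    (h1 : x < 10 * (i.val : ℝ) + 10) (h2 : 10 * (j.val : ℝ) ≤ x)
    (h3 : x ≤ 10 * (j.val : ℝ) + 6) : False := by
  have h4 : (10 : ℝ) * i.val < 10 * j.val := by linarith
  have h5 : (10 : ℝ) * j.val < 10 * i.val + 10 := by linarith
  have h4' : 10 * i.val < 10 * j.val := by exact_mod_cast h4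
  have h5' : 10 * j.val < 10 * i.val + 10 := by exact_mod_cast h5
  omega

lemma low_sep'' {T : ℕ} {i j : Fin (T + 1)} {x : ℝ} (h0 : 10 * (i.val : ℝ) + 6 < x)
    (h1 : x < 10 * (i.val : ℝ) + 10) (h2 : 10 * (j.val : ℝ) + 6 < x)
    (h3 : x < 10 * (j.val : ℝ) + 10) : i = j := by
  have h4 : (10 : ℝ) * i.val < 10 * j.val + 10 := by linarith
  have h5 : (10 : ℝ) * j.val < 10 * i.val + 10 := by linarith
  have h4' : 10 * i.val < 10 * j.val + 10 := by exact_mod_cast h4
  have h5' : 10 * j.val < 10 * i.val + 10 := by exact_mod_cast h5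
  exact Fin.ext (by omega)

lemma ring_avoid {T : ℕ} {u v : RV T} (w : RV T) (huv : ring T u v) {s : ℝ}
    (hs : s ∈ Set.Ioo (0 : ℝ) 1) : lin (rpt T u) (rpt T v) s ≠ rpt T w := by
  have hk := kind huv hs
  generalize lin (rpt T u) (rpt T v) s = P at hk
  have hT : (0 : ℝ) ≤ T := Nat.cast_nonneg T
  rintro rfl
  rcases w with ⟨k, c⟩ | w
  · obtain ⟨c1, c2, c3, c4, c5, c6⟩ := pxyR c
    have hw0 : 10 * (k.val : ℝ) ≤ (rpt T (.inl (k, c))).1 := by simp only [rpt]; linarith
    have hw1 : (rpt T (.inl (k, c))).1 ≤ 10 * (k.val : ℝ) + 6 := by simp only [rpt]; linarith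
    cases hk with
    | inner i a b hab s' hs' _ hP hx0 hx1 hy h1 h2 =>
      have := low_sep hx0 hx1 hw0 hw1
      subst this
      have h3 := drawing.avoid a b c hab s' hs'
      apply h3
      show seg a b s' = pos c
      simp only [rpt, Prod.mk.injEq] at hP
      simp only [pos]
      exact Prod.ext (by simp only; linarith [hP.1]) hP.2.symm
    | link i j hij _ hx0 hx1 hy h1 h2 => exact low_sep' hx0 hx1 hw0 hw1
    | up i hi _ h1 hx0 hx1 hy =>
      by_cases h : k.val = T ∧ c = 8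
      · obtain ⟨h3, rfl⟩ := h
        simp only [rpt, h3, px8] at hx1
        linarith
      · have := l1_neg k c h
        linarith
    | down _ h2 hx0 hx1 hy =>
      by_cases h : k = 0 ∧ c = 0
      · obtain ⟨rfl, rfl⟩ := h
        simp only [rpt, px0] at hx0
        simp at hx0
      · have := l2_neg k c h
        linarith
  · cases hk with
    | inner i a b hab s' hs' _ hP hx0 hx1 hy h1 h2 =>
      rw [l1_A] at h1; exact lt_irrefl _ h1
    | link i j hij _ hx0 hx1 hy h1 h2 => rw [l1_A] at h1; exact lt_irrefl _ h1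
    | up i hi _ h1 hx0 hx1 hy => simp only [rpt] at hy; exact lt_irrefl _ hy
    | down _ h2 hx0 hx1 hy => simp only [rpt] at hy; exact lt_irrefl _ hy

lemma ring_disj {T : ℕ} {u v u' v' : RV T} (huv : ring T u v) (huv' : ring T u' v')
    (hne : (u, v) ≠ (u', v')) {s s' : ℝ} (hs : s ∈ Set.Ioo (0 : ℝ) 1)
    (hs' : s' ∈ Set.Ioo (0 : ℝ) 1) :
    lin (rpt T u) (rpt T v) s ≠ lin (rpt T u') (rpt T v') s' := by
  have hk := kind huv hs
  have hk' := kind huv' hs'
  intro heq
  rw [← heq] at hk'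
  generalize lin (rpt T u) (rpt T v) s = P at hk hk'
  clear heq hs hs' huv huv'
  cases hk with
  | inner i a b hab s1 hs1 _ hP hx0 hx1 hy h1 h2 =>
    cases hk' with
    | inner i' a' b' hab' s2 hs2 _ hP' hx0' hx1' hy' h1' h2' =>
      have := low_sep hx0 hx1 hx0' hx1'
      subst this
      rw [hP, Prod.mk.injEq] at hP'
      refine drawing.disj a b a' b' hab hab' ?_ s1 hs1 s2 hs2 ?_
      · intro h3
        rw [Prod.mk.injEq] at h3
        exact hne (by rw [h3.1, h3.2])
      · show seg a b s1 = seg a' b' s2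
        exact Prod.ext (by linarith [hP'.1]) hP'.2
    | link i' j' hij' _ hx0' hx1' hy' h1' h2' => exact low_sep' hx0' hx1' hx0 hx1
    | up i' hi' _ h1' hx0' hx1' hy' => linarith
    | down _ h2' hx0' hx1' hy' => linarith
  | link i j hij _ hx0 hx1 hy h1 h2 =>
    cases hk' with
    | inner i' a' b' hab' s2 hs2 _ hP' hx0' hx1' hy' h1' h2' =>
      exact low_sep' hx0 hx1 hx0' hx1'
    | link i' j' hij' _ hx0' hx1' hy' h1' h2' =>
      have := low_sep'' hx0 hx1 hx0' hx1'
      subst this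
      have h3 : j = j' := Fin.ext (by omega)
      subst h3
      exact hne rfl
    | up i' hi' _ h1' hx0' hx1' hy' => linarith
    | down _ h2' hx0' hx1' hy' => linarith
  | up i hi _ h1 hx0 hx1 hy =>
    cases hk' with
    | inner i' a' b' hab' s2 hs2 _ hP' hx0' hx1' hy' h1' h2' => linarith
    | link i' j' hij' _ hx0' hx1' hy' h1' h2' => linarith
    | up i' hi' _ h1' hx0' hx1' hy' =>
      have h3 : i = i' := Fin.ext (by omega)
      subst h3
      exact hne rfl
    | down _ h2' hx0' hx1' hy' => linarith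
  | down _ h2 hx0 hx1 hy =>
    cases hk' with
    | inner i' a' b' hab' s2 hs2 _ hP' hx0' hx1' hy' h1' h2' => linarith
    | link i' j' hij' _ hx0' hx1' hy' h1' h2' => linarith
    | up i' hi' _ h1' hx0' hx1' hy' => linarith
    | down _ h2' hx0' hx1' hy' => exact hne rfl

lemma ring_ne {T : ℕ} {u v : RV T} (huv : ring T u v) : u ≠ v := by
  rintro rfl
  rcases u with ⟨i, a⟩ | x
  · rcases huv with ⟨-, hab⟩ | ⟨hij, -, -⟩
    · exact adj_ne hab rfl
    · omega
  · exact huv

/-- The straight-line drawing of the ring. -/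
noncomputable def ringDrawing (T : ℕ) : PlaneDrawing (ring T) where
  pt := rpt T
  crv := fun u v => lin (rpt T u) (rpt T v)
  pt_inj := rpt_inj T
  cont := by
    intro u v _
    apply Continuous.continuousOn
    unfold lin
    fun_prop
  inj := by
    intro u v h s _ t _ hst
    exact lin_inj (fun h' => ring_ne h (rpt_inj T h')) hst
  src := fun u v _ => lin_zero _ _
  tgt := fun u v _ => lin_one _ _
  avoid := fun u v w h t ht => ring_avoid w h ht
  disj := fun u v u' v' h h' hne s hs t ht => ring_disj h h' hne hs ht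

/-! ### Strong connectivity -/

/-- next vertex on the way to `0` -/
def nx : Fin 12 → Fin 12 := ![0, 9, 8, 11, 5, 6, 0, 1, 3, 6, 4, 0]
/-- distance to `0` -/
def dn : Fin 12 → ℕ := ![0, 3, 4, 2, 3, 2, 1, 4, 3, 2, 4, 1]
/-- previous vertex on the way from `0` -/
def pv : Fin 12 → Fin 12 := ![0, 7, 0, 8, 10, 4, 5, 8, 2, 1, 0, 3]
/-- distance from `0` -/
def dp : Fin 12 → ℕ := ![0, 4, 1, 3, 2, 3, 4, 3, 2, 5, 1, 4]

lemma nx_ok : ∀ a : Fin 12, a = 0 ∨ (adj a (nx a) ∧ dn (nx a) < dn a) := by decide +kernel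
lemma pv_ok : ∀ a : Fin 12, a = 0 ∨ (adj (pv a) a ∧ dp (pv a) < dp a) := by decide +kernel

lemma to_zero : ∀ n a, dn a = n → Relation.ReflTransGen adj a 0 := by
  intro n
  induction n using Nat.strong_induction_on with
  | _ n ih =>
    intro a ha
    rcases nx_ok a with rfl | ⟨h1, h2⟩
    · exact Relation.ReflTransGen.refl
    · exact Relation.ReflTransGen.head h1 (ih _ (by omega) _ rfl)

lemma from_zero : ∀ n a, dp a = n → Relation.ReflTransGen adj 0 a := by
  intro n
  induction n using Nat.strong_induction_on with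
  | _ n ih =>
    intro a ha
    rcases pv_ok a with rfl | ⟨h1, h2⟩
    · exact Relation.ReflTransGen.refl
    · exact Relation.ReflTransGen.tail (ih _ (by omega) _ rfl) h1

lemma conn (a b : Fin 12) : Relation.ReflTransGen adj a b :=
  (to_zero _ a rfl).trans (from_zero _ b rfl)

lemma conn_copy {T : ℕ} (i : Fin (T + 1)) (a b : Fin 12) :
    Relation.ReflTransGen (ring T) (.inl (i, a)) (.inl (i, b)) := by
  have := conn a b
  induction this with
  | refl => exact Relation.ReflTransGen.refl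
  | tail _ h2 ih => exact ih.tail (Or.inl ⟨rfl, h2⟩)

lemma to_top {T : ℕ} : ∀ (n : ℕ) (i : Fin (T + 1)), T - i.val = n → ∀ a,
    Relation.ReflTransGen (ring T) (.inl (i, a)) (.inr ()) := by
  intro n
  induction n with
  | zero =>
    intro i hi a
    have h1 : i.val = T := by have := i.isLt; omega
    exact (conn_copy i a 8).tail (show ring T (.inl (i, 8)) (.inr ()) from ⟨h1, rfl⟩)
  | succ n ih =>
    intro i hi a
    have hlt : i.val + 1 < T + 1 := by omega
    have h2 : ring T (.inl (i, 8)) (.inl (⟨i.val + 1, hlt⟩, 0)) := Or.inr ⟨rfl, rfl, rfl⟩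
    exact ((conn_copy i a 8).tail h2).trans (ih ⟨i.val + 1, hlt⟩ (by simp only; omega) 0)

lemma from_top {T : ℕ} : ∀ (n : ℕ) (i : Fin (T + 1)), i.val = n → ∀ a,
    Relation.ReflTransGen (ring T) (.inr ()) (.inl (i, a)) := by
  intro n
  induction n with
  | zero =>
    intro i hi a
    have h1 : i = 0 := Fin.ext hi
    exact Relation.ReflTransGen.head (show ring T (.inr ()) (.inl (i, 0)) from ⟨h1, rfl⟩)
      (conn_copy i 0 a)
  | succ n ih =>
    intro i hi a
    have hlt : n < T + 1 := by have := i.isLt; omega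
    have h2 : ring T (.inl (⟨n, hlt⟩, 8)) (.inl (i, 0)) := Or.inr ⟨hi.symm, rfl, rfl⟩
    exact ((ih ⟨n, hlt⟩ rfl 8).tail h2).trans (conn_copy i 0 a)

lemma ring_strong (T : ℕ) (u v : RV T) : Relation.ReflTransGen (ring T) u v := by
  have h1 : Relation.ReflTransGen (ring T) u (.inr ()) := by
    rcases u with ⟨i, a⟩ | x
    · exact to_top _ i rfl a
    · exact Relation.ReflTransGen.refl
  have h2 : Relation.ReflTransGen (ring T) (.inr ()) v := by
    rcases v with ⟨i, a⟩ | x
    · exact from_top _ i rfl a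
    · exact Relation.ReflTransGen.refl
  exact h1.trans h2

/-! ### Potentials -/

/-- order of the vertices compatible with all unmarked arcs -/
def psi0 : Fin 12 → ℤ := ![2, 7, 3, 5, 4, 0, 1, 6, 4, 0, 3, 0]

lemma psi0_ok : ∀ a b : Fin 12, adj a b → (∃ f, fs f = a ∧ fd f = b) ∨ psi0 a < psi0 b := by
  decide +kernel

lemma psi0_bd : ∀ a : Fin 12, 0 ≤ psi0 a ∧ psi0 a ≤ 7 := by decide +kernel

/-- distances from the heads of the marked arcs -/
def dd : Fin 3 → Fin 12 → ℤ := ![![2, 4, 1, 2, 4, 5, 1, 3, 2, 0, 3, 3],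
  ![1, 5, 2, 4, 2, 3, 4, 4, 3, 6, 1, 0], ![2, 3, 3, 1, 4, 0, 1, 2, 4, 4, 3, 2]]

lemma dd_ok : ∀ (f : Fin 3) (a b : Fin 12), adj a b → ¬ (fs f = a ∧ fd f = b) →
    dd f b ≤ dd f a + 1 := by decide +kernel

lemma dd_arc : ∀ f : Fin 3, dd f (fd f) + 5 ≤ dd f (fs f) + 1 := by decide +kernel

lemma dd_08 : ∀ f : Fin 3, dd f 0 ≤ dd f 8 + 1 := by decide +kernel

lemma fsd_adj : ∀ f : Fin 3, adj (fs f) (fd f) := by decide +kernel

lemma fs_inj : ∀ f f' : Fin 3, fs f = fs f' → f = f' := by decide +kernel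

theorem ring_cert {T : ℕ} (hT : 3 ≤ T) :
    Cert (T + 1) 5 (ring T) (rsrc T) (rdst T) (rkap T) := by
  refine ⟨?_, ?_, ?_, ⟨ringDrawing T⟩, ring_strong T, ?_, ?_, ?_, ?_⟩
  · rintro (_ | ⟨i, f⟩)
    · exact ⟨rfl, rfl⟩
    · exact Or.inl ⟨rfl, fsd_adj f⟩
  · rintro (_ | ⟨i, f⟩) (_ | ⟨i', f'⟩) h1 h2
    · rfl
    · simp [rsrc] at h1
    · simp [rsrc] at h1
    · simp only [rsrc, Sum.inl.injEq, Prod.mk.injEq] at h1
      rw [h1.1, fs_inj _ _ h1.2]
  · rintro (⟨i, a⟩ | x) (⟨j, b⟩ | y) huv hvu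
    · rcases huv with ⟨rfl, hab⟩ | ⟨hij, rfl, rfl⟩
      · rcases hvu with ⟨-, hba⟩ | ⟨hij, -, -⟩
        · exact oriented _ _ hab hba
        · omega
      · rcases hvu with ⟨rfl, hba⟩ | ⟨hij', -, -⟩
        · omega
        · omega
    · obtain ⟨h1, rfl⟩ := huv
      obtain ⟨-, h2⟩ := hvu
      exact absurd h2 (by decide)
    · obtain ⟨-, rfl⟩ := huv
      obtain ⟨-, h2⟩ := hvu
      exact absurd h2 (by decide)
    · exact huv
  · refine ⟨Sum.elim (fun p => 20 * (p.1.val : ℤ) + psi0 p.2) (fun _ => 20 * ((T : ℤ) + 1)), ?_⟩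
    rintro (⟨i, a⟩ | x) (⟨j, b⟩ | y) huv
    · rcases huv with ⟨rfl, hab⟩ | ⟨hij, rfl, rfl⟩
      · rcases psi0_ok _ _ hab with ⟨f, h1, h2⟩ | h
        · left
          exact ⟨some (i, f), by simp [rsrc, h1], by simp [rdst, h2]⟩
        · right
          simp only [Sum.elim_inl]
          omega
      · right
        simp only [Sum.elim_inl]
        have h1 := psi0_bd 8
        have h2 := psi0_bd 0
        omega
    · right
      obtain ⟨hi, rfl⟩ := huv
      simp only [Sum.elim_inl, Sum.elim_inr]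
      have h1 := psi0_bd 8
      omega
    · left
      obtain ⟨rfl, rfl⟩ := huv
      exact ⟨none, rfl, rfl⟩
    · exact absurd huv id
  · rintro (_ | ⟨i0, f⟩)
    · refine ⟨Sum.elim (fun p => (p.1.val : ℤ)) (fun _ => (T : ℤ) + 1), ?_, ?_⟩
      · rintro (⟨i, a⟩ | x) (⟨j, b⟩ | y) huv hn
        · rcases huv with ⟨rfl, hab⟩ | ⟨hij, rfl, rfl⟩
          · simp only [Sum.elim_inl]; omega
          · simp only [Sum.elim_inl]; omega
        · obtain ⟨hi, rfl⟩ := huv
          simp only [Sum.elim_inl, Sum.elim_inr]; omega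
        · obtain ⟨rfl, rfl⟩ := huv
          exact absurd ⟨rfl, rfl⟩ hn
        · exact absurd huv id
      · simp only [rsrc, rdst, Sum.elim_inl, Sum.elim_inr, Fin.val_zero]
        push_cast
        omega
    · refine ⟨Sum.elim (fun p => if p.1 = i0 then dd f p.2 else dd f 0) (fun _ => dd f 0), ?_, ?_⟩
      · rintro (⟨i, a⟩ | x) (⟨j, b⟩ | y) huv hn
        · rcases huv with ⟨rfl, hab⟩ | ⟨hij, rfl, rfl⟩
          · simp only [Sum.elim_inl]
            by_cases hi : i = i0
            · subst hi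
              simp only [if_true]
              apply dd_ok f a b hab
              rintro ⟨h1, h2⟩
              apply hn
              simp [rsrc, rdst, h1, h2]
            · simp only [if_neg hi]; omega
          · simp only [Sum.elim_inl]
            have h1 := dd_08 f
            by_cases hi : i = i0 <;> by_cases hj : j = i0 <;> simp only [hi, hj, if_true, if_false] <;>
              omega
        · obtain ⟨hi, rfl⟩ := huv
          simp only [Sum.elim_inl, Sum.elim_inr]
          have h1 := dd_08 f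
          split_ifs <;> omega
        · obtain ⟨rfl, rfl⟩ := huv
          simp only [Sum.elim_inl, Sum.elim_inr]
          split_ifs <;> omega
        · exact absurd huv id
      · simp only [rsrc, rdst, Sum.elim_inl, if_true]
        exact_mod_cast dd_arc f
  · refine ⟨some (0, 0), ?_⟩
    have step : ∀ a b : Fin 12, adj a b → (∀ f, ¬ (fs f = a ∧ fd f = b)) →
        (ring T (.inl (0, a)) (.inl (0, b)) ∧
          ¬ ∃ f, rsrc T f = .inl (0, a) ∧ rdst T f = .inl (0, b)) := by
      intro a b hab hf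
      refine ⟨Or.inl ⟨rfl, hab⟩, ?_⟩
      rintro ⟨(_ | ⟨i, f⟩), h1, h2⟩
      · simp [rsrc] at h1
      · simp only [rsrc, rdst, Sum.inl.injEq, Prod.mk.injEq] at h1 h2
        exact hf f ⟨h1.2, h2.2⟩
    have h0 : Walk (fun u v => ring T u v ∧ ¬ ∃ f, rsrc T f = u ∧ rdst T f = v) 0
        (.inl (0, 9)) (.inl (0, 9)) := ⟨fun _ => .inl (0, 9), rfl, rfl, fun i hi => by omega⟩
    have h1 := h0.snoc (step 9 2 (by decide +kernel) (by decide +kernel))
    have h2 := h1.snoc (step 2 8 (by decide +kernel) (by decide +kernel))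
    have h3 := h2.snoc (step 8 7 (by decide +kernel) (by decide +kernel))
    have h4 := h3.snoc (step 7 1 (by decide +kernel) (by decide +kernel))
    exact h4
  · intro i x y
    set π : RV T → Fin 12 := Sum.elim (fun p => p.2) (fun _ => 0) with hπ
    obtain ⟨j, hj⟩ := no_two (π x) (π y)
    have hav : ∀ k z, cyc j k ≠ π z → (Sum.inl (i, cyc j k) : RV T) ≠ z := by
      intro k z h1 h2
      rw [← h2] at h1
      exact h1 rfl
    let R : RV T → RV T → Prop := fun a b => ring T a b ∧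
      (rkap T a = some i ∧ rkap T b = some i) ∧ (a ≠ x ∧ a ≠ y) ∧ (b ≠ x ∧ b ≠ y)
    have hst : ∀ k : Fin 5, R (.inl (i, cyc j k)) (.inl (i, cyc j (k + 1))) := by
      intro k
      refine ⟨Or.inl ⟨rfl, ?_⟩, ⟨rfl, rfl⟩, ⟨hav _ _ (hj k).1, hav _ _ (hj k).2⟩,
        hav _ _ (hj (k + 1)).1, hav _ _ (hj (k + 1)).2⟩
      have h2 : ∀ j i : Fin 5, adj (cyc j i) (cyc j (i + 1)) := by decide +kernel
      exact h2 j k
    refine ⟨.inl (i, cyc j 0), ?_⟩
    have t0 : Relation.TransGen R _ _ := Relation.TransGen.single (hst 0)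
    have t1 : Relation.TransGen R _ _ := t0.tail (hst 1)
    have t2 : Relation.TransGen R _ _ := t1.tail (hst 2)
    have t3 : Relation.TransGen R _ _ := t2.tail (hst 3)
    exact t3.tail (hst 4)

/-! ### The number of arcs -/

theorem numArcs_ring (T : ℕ) : numArcs (ring T) ≤ 20 * (T + 1) + 1 := by
  unfold numArcs
  let F : (Fin (T + 1) × Fin 19) ⊕ Fin (T + 1) ⊕ Unit → RV T × RV T := fun e => match e with
    | .inl (i, k) => (.inl (i, (arcs.get (k.cast (by rfl))).1),
        .inl (i, (arcs.get (k.cast (by rfl))).2))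
    | .inr (.inl i) => (.inl (i, 8), if h : i.val + 1 < T + 1 then .inl (⟨i.val + 1, h⟩, 0)
        else .inr ())
    | .inr (.inr _) => (.inr (), .inl (0, 0))
  have h1 : {p : RV T × RV T | ring T p.1 p.2} ⊆ Set.range F := by
    rintro ⟨(⟨i, a⟩ | x), (⟨j, b⟩ | y)⟩ huv
    · rcases huv with ⟨rfl, hab⟩ | ⟨hij, h8, h0⟩
      · have hab' : (a, b) ∈ arcs := hab
        obtain ⟨k, hk⟩ := List.get_of_mem hab'
        refine ⟨.inl (i, k.cast (by rfl)), ?_⟩
        simp only [F]
        have : arcs.get ((k.cast (by rfl) : Fin 19).cast (by rfl)) = (a, b) := hk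
        rw [this]
      · subst h8 h0
        refine ⟨.inr (.inl i), ?_⟩
        have hlt : i.val + 1 < T + 1 := by have := j.isLt; omega
        simp only [F, dif_pos hlt, Prod.mk.injEq, Sum.inl.injEq, true_and, and_true]
        exact Fin.ext hij
    · obtain ⟨hi, h8⟩ := huv
      subst h8
      refine ⟨.inr (.inl i), ?_⟩
      have hlt : ¬ i.val + 1 < T + 1 := by omega
      simp only [F, dif_neg hlt]
    · obtain ⟨h1, h2⟩ := huv
      subst h1 h2
      exact ⟨.inr (.inr ()), rfl⟩
    · exact absurd huv id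
  refine (Set.ncard_le_ncard h1 (Set.toFinite _)).trans ?_
  rw [← Set.image_univ]
  refine (Set.ncard_image_le (Set.toFinite _)).trans ?_
  rw [Set.ncard_univ, Nat.card_eq_fintype_card]
  simp only [Fintype.card_sum, Fintype.card_prod, Fintype.card_fin, Fintype.card_unit]
  omega

/-- Graphs with all the certificates, for all `g ≥ 5`. -/
theorem exists_cert {T : ℕ} (hT : 3 ≤ T) : ∀ s : ℕ, ∃ (V : Type) (_ : Fintype V)
    (adj : V → V → Prop) (src dst : RPhi T → V) (κ : V → Option (Fin (T + 1))),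
    Cert (T + 1) (5 + s) adj src dst κ ∧
    Fintype.card V = 12 * (T + 1) + 1 + s * (3 * (T + 1) + 1) ∧
    numArcs adj ≤ 20 * (T + 1) + 1 + s * (3 * (T + 1) + 1) := by
  intro s
  induction s with
  | zero =>
    refine ⟨RV T, inferInstance, ring T, rsrc T, rdst T, rkap T, ring_cert hT, ?_, ?_⟩
    · simp only [RV, Fintype.card_sum, Fintype.card_prod, Fintype.card_fin, Fintype.card_unit]
      ring
    · simpa using numArcs_ring T
  | succ s ih =>
    obtain ⟨V, _, adj, src, dst, κ, C, h1, h2⟩ := ih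
    have hcard : Fintype.card (RPhi T) = 3 * (T + 1) + 1 := by
      simp only [RPhi, Fintype.card_option, Fintype.card_prod, Fintype.card_fin]
      ring
    refine ⟨V ⊕ RPhi T, inferInstance, sub adj src dst, _, _, _, C.step (by omega), ?_, ?_⟩
    · rw [Fintype.card_sum, h1, hcard]; ring
    · refine (numArcs_sub C.arc C.pinj).trans ?_
      rw [hcard]
      have : (s + 1) * (3 * (T + 1) + 1) = s * (3 * (T + 1) + 1) + (3 * (T + 1) + 1) := by ring
      omega

/-- What the certificate says on the digirth. -/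
theorem Cert.hasDigirth {V Φ : Type} {t g : ℕ} (hg : 1 ≤ g) {adj : V → V → Prop}
    {src dst : Φ → V} {κ : V → Option (Fin t)} (C : Cert t g adj src dst κ) :
    HasDigirth adj g := by
  have hlow : ∀ k, 1 ≤ k → ∀ c : ZMod k → V, IsDicycle adj k c → g ≤ k := by
    intro k hk c hc
    have := le_of_dicycle src dst (g : ℤ) C.psi C.phi hk hc
    exact_mod_cast this
  refine ⟨?_, ?_⟩
  · obtain ⟨f, hw⟩ := C.wk
    have h1 : Walk adj (g - 1) (dst f) (src f) := hw.mono (fun _ _ h => h.1)
    have h2 := h1.snoc (C.arc f)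
    rw [Nat.sub_add_cancel hg] at h2
    obtain ⟨k', h3, h4, c, hc⟩ := dicycle_of_closed g hg _ h2
    have h5 := hlow k' h3 c hc
    have h6 : k' = g := le_antisymm h4 h5
    subst h6
    exact ⟨h3, c, hc⟩
  · rintro k ⟨hk, c, hc⟩
    exact hlow k hk c hc

/-- What the certificate says on the feedback vertex number. -/
theorem Cert.le_fvs {V Φ : Type} [Fintype V] {t g : ℕ} {adj : V → V → Prop}
    {src dst : Φ → V} {κ : V → Option (Fin t)} (C : Cert t g adj src dst κ) :
    3 * t ≤ fvs adj := by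
  have hne : Nonempty V := ⟨src C.wk.choose⟩
  apply le_csInf
  · refine ⟨_, Finset.univ, rfl, ?_⟩
    intro k _ c _
    exact ⟨0, Finset.mem_univ _⟩
  · rintro s ⟨S, rfl, hS⟩
    exact three_mul_le_card t κ C.cyc hS

end Pool.Agent.J6H40.FVS
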