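import Pool.Agent.Results.MP_fa4488_co.DigirthFive

/-!
# Directed cycles, closed walks and feedback vertex sets

Auxiliary facts on the notions of `Pool.Agent.Results.MP_fa4488_co.DigirthFive`.
-/

set_option autoImplicit false

namespace Pool.Agent.J6H40.FVS

open Pool.Agent.Results.MP_fa4488_co.DigirthFive

variable {V : Type*}

/-- There is a walk with `k` steps of the relation `r` from `u` to `v`. -/
def Walk (r : V → V → Prop) (k : ℕ) (u v : V) : Prop :=
  ∃ p : ℕ → V, p 0 = u ∧ p k = v ∧ ∀ i, i < k → r (p i) (p (i + 1))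

theorem Walk.snoc {r : V → V → Prop} {k : ℕ} {u v w : V} (h : Walk r k u v) (h2 : r v w) :
    Walk r (k + 1) u w := by
  obtain ⟨p, h0, hk, hp⟩ := h
  refine ⟨fun i => if i ≤ k then p i else w, ?_, ?_, ?_⟩
  · simp [h0]
  · simp
  · intro i hi
    by_cases h : i < k
    · have h1 : i ≤ k := h.le
      have h3 : i + 1 ≤ k := h
      simp only [h1, h3, if_true]
      exact hp i h
    · have : i = k := by omega
      subst this
      simp only [le_refl, if_true]
      rw [if_neg (by omega), hk]
      exact h2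

theorem Walk.map {W : Type*} {r : V → V → Prop} {r' : W → W → Prop} {k : ℕ} {u v : V}
    (h : Walk r k u v) (F : V → W) (hF : ∀ a b, r a b → r' (F a) (F b)) :
    Walk r' k (F u) (F v) := by
  obtain ⟨p, h0, hk, hp⟩ := h
  exact ⟨fun i => F (p i), by simp [h0], by simp [hk], fun i hi => hF _ _ (hp i hi)⟩

theorem Walk.mono {r r' : V → V → Prop} {k : ℕ} {u v : V}
    (h : Walk r k u v) (hF : ∀ a b, r a b → r' a b) : Walk r' k u v := by
  simpa using h.map id (by simpa using hF)

theorem walk_of_transGen {r : V → V → Prop} {u v : V} (h : Relation.TransGen r u v) :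
    ∃ k, 1 ≤ k ∧ Walk r k u v := by
  induction h with
  | single h =>
    rename_i b
    refine ⟨1, le_rfl, fun i => if i = 0 then u else b, by simp, by simp, ?_⟩
    intro i hi
    have : i = 0 := by omega
    subst this
    simpa using h
  | tail _ h2 ih =>
    obtain ⟨k, hk, hw⟩ := ih
    exact ⟨k + 1, by omega, hw.snoc h2⟩

/-- A closed walk contains a directed cycle. -/
theorem dicycle_of_closed {r : V → V → Prop} : ∀ (k : ℕ), 1 ≤ k → ∀ v, Walk r k v v →
    ∃ k', 1 ≤ k' ∧ k' ≤ k ∧ ∃ c : ZMod k' → V, IsDicycle r k' c := by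
  intro k
  induction k using Nat.strong_induction_on with
  | _ k ih =>
    intro hk v hw
    obtain ⟨p, h0, hk', hp⟩ := hw
    by_cases hinj : ∀ i j, i < k → j < k → p i = p j → i = j
    · obtain ⟨m, rfl⟩ : ∃ m, k = m + 1 := ⟨k - 1, by omega⟩
      refine ⟨m + 1, by omega, le_rfl, fun i => p (ZMod.val i), ?_, ?_⟩
      · intro i j hij
        exact ZMod.val_injective _ (hinj _ _ (ZMod.val_lt i) (ZMod.val_lt j) hij)
      · intro i
        have hv : ZMod.val (i + 1 : ZMod (m + 1)) = (ZMod.val i + 1) % (m + 1) := by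
          rw [ZMod.val_add, ZMod.val_one_eq_one_mod, Nat.add_mod_mod]
        show r (p (ZMod.val i)) (p (ZMod.val (i + 1)))
        rw [hv]
        have hlt := ZMod.val_lt i
        by_cases h : ZMod.val i = m
        · rw [h, Nat.mod_self, h0, ← hk']
          exact hp m (by omega)
        · rw [Nat.mod_eq_of_lt (by omega)]
          exact hp _ hlt
    · push Not at hinj
      obtain ⟨i, j, hi, hj, hij, hne⟩ := hinj
      wlog hlt : i < j generalizing i j
      · exact this j i hj hi hij.symm hne.symm (by omega)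
      have hw : Walk r (j - i) (p i) (p i) := by
        refine ⟨fun l => p (i + l), by simp, ?_, ?_⟩
        · show p (i + (j - i)) = p i
          rw [show i + (j - i) = j by omega, hij]
        · intro l hl
          have := hp (i + l) (by omega)
          simpa [add_assoc] using this
      obtain ⟨k', h1, h2, h3⟩ := ih (j - i) (by omega) (by omega) (p i) hw
      exact ⟨k', h1, by omega, h3⟩

/-- If all directed cycles pass through one of the arcs `src f → dst f`, and for each of these arcs
there is a potential, then all directed cycles have length at least `g`. -/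
theorem le_of_dicycle {adj : V → V → Prop} {Φ : Type*} (src dst : Φ → V) (g : ℤ)
    (hψ : ∃ ψ : V → ℤ, ∀ u v, adj u v → (∃ f, src f = u ∧ dst f = v) ∨ ψ u < ψ v)
    (hφ : ∀ f, ∃ φ : V → ℤ, (∀ u v, adj u v → ¬ (src f = u ∧ dst f = v) → φ v ≤ φ u + 1) ∧
      φ (dst f) + g ≤ φ (src f) + 1)
    {k : ℕ} (hk : 1 ≤ k) {c : ZMod k → V} (hc : IsDicycle adj k c) : g ≤ k := by
  have : NeZero k := ⟨by omega⟩
  obtain ⟨ψ, hψ⟩ := hψ
  have hsum : ∀ φ : V → ℤ, ∑ i : ZMod k, (φ (c (i + 1)) - φ (c i)) = 0 := by
    intro φ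
    rw [Finset.sum_sub_distrib, sub_eq_zero]
    exact Equiv.sum_comp (Equiv.addRight (1 : ZMod k)) (fun i => φ (c i))
  have hex : ∃ i f, src f = c i ∧ dst f = c (i + 1) := by
    by_contra hno
    push Not at hno
    have h1 := hsum ψ
    have h2 : 0 < ∑ i : ZMod k, (ψ (c (i + 1)) - ψ (c i)) := by
      apply Finset.sum_pos
      · intro i _
        rcases hψ _ _ (hc.2 i) with ⟨f, hf1, hf2⟩ | h
        · exact absurd hf2 (hno i f hf1)
        · linarith
      · exact Finset.univ_nonempty
    omega
  obtain ⟨i0, f, hf1, hf2⟩ := hex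
  obtain ⟨φ, h1, h2⟩ := hφ f
  have h3 := hsum φ
  rw [← Finset.add_sum_erase _ _ (Finset.mem_univ i0)] at h3
  have h4 : ∑ i ∈ Finset.univ.erase i0, (φ (c (i + 1)) - φ (c i)) ≤
      ∑ i ∈ (Finset.univ : Finset (ZMod k)).erase i0, (1 : ℤ) := by
    apply Finset.sum_le_sum
    intro i hi
    have hne := Finset.ne_of_mem_erase hi
    have := h1 _ _ (hc.2 i) (by
      rintro ⟨h5, -⟩
      exact hne (hc.1 (h5.symm.trans hf1)))
    linarith
  rw [Finset.sum_const, Finset.card_erase_of_mem (Finset.mem_univ _), Finset.card_univ,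
    ZMod.card] at h4
  rw [hf1, hf2] at h2
  have h5 : ((k - 1 : ℕ) : ℤ) = (k : ℤ) - 1 := by omega
  rw [nsmul_eq_mul, h5] at h4
  linarith

/-- Lower bound for the feedback vertex number by disjoint parts each of which has a closed walk
avoiding any two given vertices. -/
theorem three_mul_le_card {adj : V → V → Prop} [Nonempty V] (t : ℕ) (κ : V → Option (Fin t))
    (h : ∀ i x y, ∃ v, Relation.TransGen (fun a b => adj a b ∧ (κ a = some i ∧ κ b = some i) ∧
      (a ≠ x ∧ a ≠ y) ∧ (b ≠ x ∧ b ≠ y)) v v) {S : Finset V} (hS : IsFVS adj S) :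
    3 * t ≤ S.card := by
  classical
  have key : ∀ i : Fin t, 3 ≤ (S.filter (fun v => κ v = some i)).card := by
    intro i
    by_contra hlt
    set T := S.filter (fun v => κ v = some i) with hT
    have hxy : ∃ x y : V, T ⊆ {x, y} := by
      have h2 : T.card = 0 ∨ T.card = 1 ∨ T.card = 2 := by omega
      rcases h2 with h | h | h
      · have x : V := Classical.arbitrary V
        exact ⟨x, x, by simp [Finset.card_eq_zero.1 h]⟩
      · obtain ⟨x, hx⟩ := Finset.card_eq_one.1 h
        exact ⟨x, x, by simp [hx]⟩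
      · obtain ⟨x, y, _, hx⟩ := Finset.card_eq_two.1 h
        exact ⟨x, y, by rw [hx]⟩
    obtain ⟨x, y, hsub⟩ := hxy
    obtain ⟨v, hv⟩ := h i x y
    obtain ⟨k, hk, hw⟩ := walk_of_transGen hv
    obtain ⟨k', hk', -, c, hc⟩ := dicycle_of_closed k hk v hw
    obtain ⟨j, hj⟩ := hS k' hk' c ⟨hc.1, fun i => (hc.2 i).1⟩
    have h1 := (hc.2 j).2
    have h2 : c j ∈ T := by
      rw [hT, Finset.mem_filter]
      exact ⟨hj, h1.1.1⟩
    have h3 := hsub h2
    rw [Finset.mem_insert, Finset.mem_singleton] at h3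
    rcases h3 with h3 | h3
    · exact h1.2.1.1 h3
    · exact h1.2.1.2 h3
  have h1 : ∑ i : Fin t, (S.filter (fun v => κ v = some i)).card ≤ S.card := by
    rw [← Finset.card_biUnion]
    · apply Finset.card_le_card
      intro v hv
      simp only [Finset.mem_biUnion, Finset.mem_filter] at hv
      obtain ⟨_, _, h, _⟩ := hv
      exact h
    · intro i _ j _ hij
      rw [Function.onFun, Finset.disjoint_left]
      intro v hv hv'
      rw [Finset.mem_filter] at hv hv'
      apply hij
      have := hv.2.symm.trans hv'.2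
      simpa using this
  calc 3 * t = ∑ _i : Fin t, 3 := by simp [mul_comm]
    _ ≤ _ := Finset.sum_le_sum (fun i _ => key i)
    _ ≤ _ := h1

end Pool.Agent.J6H40.FVS
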