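import Pool.Agent.J6H40.FVS.Base

/-!
# Transport to `Fin n` and the final estimate
-/

set_option autoImplicit false

namespace Pool.Agent.J6H40.FVS

open Pool.Agent.Results.MP_fa4488_co.DigirthFive

section transport

variable {V W : Type} (e : V ≃ W) (adj : V → V → Prop)

/-- the same graph on another vertex set -/
def tr : W → W → Prop := fun a b => adj (e.symm a) (e.symm b)

variable {adj}

/-- the same drawing -/
noncomputable def trDrawing (D : PlaneDrawing adj) : PlaneDrawing (tr e adj) where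
  pt := fun a => D.pt (e.symm a)
  crv := fun a b => D.crv (e.symm a) (e.symm b)
  pt_inj := fun a b h => e.symm.injective (D.pt_inj h)
  cont := fun u v h => D.cont _ _ h
  inj := fun u v h => D.inj _ _ h
  src := fun u v h => D.src _ _ h
  tgt := fun u v h => D.tgt _ _ h
  avoid := fun u v w h => D.avoid _ _ _ h
  disj := by
    intro u v u' v' h h' hne
    refine D.disj _ _ _ _ h h' ?_
    intro heq
    rw [Prod.mk.injEq] at heq
    exact hne (by rw [e.symm.injective heq.1, e.symm.injective heq.2])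

theorem tr_map {a b : V} (h : adj a b) : tr e adj (e a) (e b) := by
  simpa [tr] using h

theorem Cert.transport {Φ : Type} {t g : ℕ} {src dst : Φ → V} {κ : V → Option (Fin t)}
    (C : Cert t g adj src dst κ) :
    Cert t g (tr e adj) (fun f => e (src f)) (fun f => e (dst f)) (fun w => κ (e.symm w)) := by
  refine ⟨fun f => tr_map e (C.arc f), ?_, ?_, ?_, ?_, ?_, ?_, ?_, ?_⟩
  · intro f f' h1 h2
    exact C.pinj f f' (e.injective h1) (e.injective h2)
  · intro u v h; exact C.oriented _ _ h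
  · obtain ⟨D⟩ := C.planar
    exact ⟨trDrawing e D⟩
  · intro u v
    have := (C.strong (e.symm u) (e.symm v)).lift (p := tr e adj) e (fun a b h => tr_map e h)
    rw [Function.onFun, e.apply_symm_apply, e.apply_symm_apply] at this
    exact this
  · obtain ⟨ψ, hψ⟩ := C.psi
    refine ⟨fun w => ψ (e.symm w), ?_⟩
    intro u v h
    rcases hψ _ _ h with ⟨f, h1, h2⟩ | h1
    · left; exact ⟨f, by simp [h1], by simp [h2]⟩
    · right; exact h1
  · intro f
    obtain ⟨φ, h1, h2⟩ := C.phi f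
    refine ⟨fun w => φ (e.symm w), ?_, by simpa using h2⟩
    intro u v h hn
    apply h1 _ _ h
    rintro ⟨h3, h4⟩
    exact hn ⟨by simp [h3], by simp [h4]⟩
  · obtain ⟨f, hw⟩ := C.wk
    refine ⟨f, hw.map e ?_⟩
    rintro a b ⟨h1, h2⟩
    refine ⟨tr_map e h1, ?_⟩
    rintro ⟨f', h3, h4⟩
    exact h2 ⟨f', e.injective h3, e.injective h4⟩
  · intro i x y
    obtain ⟨v, hv⟩ := C.cyc i (e.symm x) (e.symm y)
    refine ⟨e v, hv.lift e ?_⟩
    rintro a b ⟨h1, ⟨h2, h3⟩, ⟨h4, h5⟩, h6, h7⟩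
    refine ⟨tr_map e h1, ⟨by simpa using h2, by simpa using h3⟩, ⟨?_, ?_⟩, ?_, ?_⟩
    · rintro rfl; simp at h4
    · rintro rfl; simp at h5
    · rintro rfl; simp at h6
    · rintro rfl; simp at h7

theorem numArcs_tr : numArcs (tr e adj) = numArcs adj := by
  unfold numArcs
  have h1 : {p : W × W | tr e adj p.1 p.2} = (Prod.map e e) '' {p : V × V | adj p.1 p.2} := by
    ext ⟨a, b⟩
    constructor
    · intro h
      exact ⟨(e.symm a, e.symm b), h, by simp⟩
    · rintro ⟨⟨c, d⟩, h, heq⟩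
      simp only [Prod.map, Prod.mk.injEq] at heq
      rw [← heq.1, ← heq.2]
      exact tr_map e h
  rw [h1]
  exact Set.ncard_image_of_injective _ (e.injective.prodMap e.injective)

end transport

theorem main (g : ℕ) (hg : 5 ≤ g) (N : ℕ) : ∃ (n : ℕ) (adj : Fin n → Fin n → Prop), N ≤ n ∧
      IsOriented adj ∧ IsPlanar adj ∧ (∀ u v, Relation.ReflTransGen adj u v) ∧
      HasDigirth adj g ∧
      (1 + 1 / (9 * (g : ℝ))) * ((2 * (n : ℝ) + (numArcs adj : ℝ)) / (3 * (g : ℝ))) ≤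
        (fvs adj : ℝ) := by
  obtain ⟨s, rfl⟩ := Nat.exists_eq_add_of_le hg
  set T : ℕ := N + 27 * (5 + s) ^ 2 with hT
  have hT3 : 3 ≤ T := by
    have : 1 ≤ (5 + s) ^ 2 := Nat.one_le_pow _ _ (by omega)
    omega
  obtain ⟨V, hV, adj, src, dst, κ, C, h1, h2⟩ := exists_cert hT3 s
  let e := Fintype.equivFin V
  have C' := C.transport e
  refine ⟨Fintype.card V, tr e adj, ?_, C'.oriented, C'.planar, C'.strong,
    C'.hasDigirth (by omega), ?_⟩
  · rw [h1]
    have h3 : N ≤ T := by omega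
    have h4 : 0 ≤ s * (3 * (T + 1) + 1) := Nat.zero_le _
    omega
  · have h3 := C'.le_fvs
    have h3' : (3 : ℝ) * ((T : ℝ) + 1) ≤ (fvs (tr e adj) : ℝ) := by exact_mod_cast h3
    refine le_trans ?_ h3'
    rw [numArcs_tr, h1]
    have h2' : (numArcs adj : ℝ) ≤ 20 * ((T : ℝ) + 1) + 1 + (s : ℝ) * (3 * ((T : ℝ) + 1) + 1) := by
      exact_mod_cast h2
    have hTr : (N : ℝ) + 27 * (5 + (s : ℝ)) ^ 2 = (T : ℝ) := by rw [hT]; push_cast; ring
    have hN : (0 : ℝ) ≤ N := Nat.cast_nonneg N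
    have hs : (0 : ℝ) ≤ s := Nat.cast_nonneg s
    push_cast
    set τ : ℝ := (T : ℝ) with hτ
    set σ : ℝ := (s : ℝ) with hσ
    have hg0 : (0 : ℝ) < 5 + σ := by linarith
    have hA : 2 * (12 * (τ + 1) + 1 + σ * (3 * (τ + 1) + 1)) + (numArcs adj : ℝ) ≤
        (9 * (5 + σ) - 1) * (τ + 1) + 3 * (1 + σ) := by
      nlinarith
    have hA0 : (0 : ℝ) ≤ 2 * (12 * (τ + 1) + 1 + σ * (3 * (τ + 1) + 1)) + (numArcs adj : ℝ) := by
      have : (0 : ℝ) ≤ τ := Nat.cast_nonneg T
      positivity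
    have e1 : (1 + 1 / (9 * (5 + σ))) = (9 * (5 + σ) + 1) / (9 * (5 + σ)) := by
      field_simp
    rw [e1, div_mul_div_comm, div_le_iff₀ (by positivity)]
    calc (9 * (5 + σ) + 1) * (2 * (12 * (τ + 1) + 1 + σ * (3 * (τ + 1) + 1)) + (numArcs adj : ℝ))
        ≤ (9 * (5 + σ) + 1) * ((9 * (5 + σ) - 1) * (τ + 1) + 3 * (1 + σ)) :=
          mul_le_mul_of_nonneg_left hA (by positivity)
      _ ≤ 3 * (τ + 1) * (9 * (5 + σ) * (3 * (5 + σ))) := by
          have h9 : (9 * (5 + σ) + 1) * (3 * (1 + σ)) ≤ τ + 1 := by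
            nlinarith
          nlinarith

end Pool.Agent.J6H40.FVS
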