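import Pool.Agent.J6H40.FVS.Sub

/-!
# A ring of copies of the planar oriented graph with 12 vertices and 19 arcs
-/

set_option autoImplicit false

namespace Pool.Agent.J6H40.FVS

open Pool.Agent.Results.MP_fa4488_co.DigirthFive

/-- Vertices: `T + 1` copies of the 12 vertices and one further vertex. -/
abbrev RV (T : ℕ) : Type := (Fin (T + 1) × Fin 12) ⊕ Unit

/-- Indices of the marked arcs. -/
abbrev RPhi (T : ℕ) : Type := Option (Fin (T + 1) × Fin 3)

/-- The arcs. -/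
def ring (T : ℕ) : RV T → RV T → Prop
  | .inl (i, a), .inl (j, b) => (i = j ∧ adj a b) ∨ (i.val + 1 = j.val ∧ a = 8 ∧ b = 0)
  | .inl (i, a), .inr _ => i.val = T ∧ a = 8
  | .inr _, .inl (j, b) => j = 0 ∧ b = 0
  | .inr _, .inr _ => False

/-- tails of the marked arcs -/
def fs : Fin 3 → Fin 12 := ![1, 3, 4]
/-- heads of the marked arcs -/
def fd : Fin 3 → Fin 12 := ![9, 11, 5]

/-- tails of the marked arcs -/
def rsrc (T : ℕ) : RPhi T → RV T
  | none => .inr ()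
  | some (i, f) => .inl (i, fs f)

/-- heads of the marked arcs -/
def rdst (T : ℕ) : RPhi T → RV T
  | none => .inl (0, 0)
  | some (i, f) => .inl (i, fd f)

/-- the number of the copy -/
def rkap (T : ℕ) : RV T → Option (Fin (T + 1)) := Sum.elim (fun p => some p.1) (fun _ => none)

/-! ### The drawing -/

/-- A straight segment. -/
def lin (p q : ℝ × ℝ) (s : ℝ) : ℝ × ℝ := ((1 - s) * p.1 + s * q.1, (1 - s) * p.2 + s * q.2)

/-- The positions of the vertices. -/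
def rpt (T : ℕ) : RV T → ℝ × ℝ
  | .inl (i, a) => (10 * (i.val : ℝ) + (px a : ℝ), (py a : ℝ))
  | .inr _ => (5 * ((T : ℝ) + 1), 50 * ((T : ℝ) + 1))

lemma pxy : ∀ a : Fin 12, 0 ≤ px a ∧ px a ≤ 6 ∧ 0 ≤ py a ∧ py a ≤ 9 ∧ (a ≠ 8 → px a ≤ 5) ∧
    (a ≠ 0 → 1 ≤ px a) := by decide +kernel

lemma pxyR (a : Fin 12) : (0 : ℝ) ≤ px a ∧ (px a : ℝ) ≤ 6 ∧ (0 : ℝ) ≤ py a ∧ (py a : ℝ) ≤ 9 ∧
    (a ≠ 8 → (px a : ℝ) ≤ 5) ∧ (a ≠ 0 → (1 : ℝ) ≤ px a) := by
  obtain ⟨h1, h2, h3, h4, h5, h6⟩ := pxy a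
  refine ⟨by exact_mod_cast h1, by exact_mod_cast h2, by exact_mod_cast h3, by exact_mod_cast h4,
    fun h => by exact_mod_cast h5 h, fun h => by exact_mod_cast h6 h⟩

lemma px8 : (px 8 : ℝ) = 6 := by simp [px]
lemma py8 : (py 8 : ℝ) = 2 := by simp [py]
lemma px0 : (px 0 : ℝ) = 0 := by simp [px]
lemma py0 : (py 0 : ℝ) = 0 := by simp [py]

/-- First functional: zero on the way up. -/
def l1 (T : ℕ) (p : ℝ × ℝ) : ℝ :=
  (50 * (T : ℝ) + 48) * (p.1 - (10 * (T : ℝ) + 6)) + (5 * (T : ℝ) + 1) * (p.2 - 2)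

/-- Second functional: zero on the way down. -/
def l2 (p : ℝ × ℝ) : ℝ := p.2 - 10 * p.1

lemma l1_lin (T : ℕ) (p q : ℝ × ℝ) (s : ℝ) :
    l1 T (lin p q s) = (1 - s) * l1 T p + s * l1 T q := by
  simp only [l1, lin]; ring

lemma l2_lin (p q : ℝ × ℝ) (s : ℝ) :
    l2 (lin p q s) = (1 - s) * l2 p + s * l2 q := by
  simp only [l2, lin]; ring

lemma l1_neg {T : ℕ} (i : Fin (T + 1)) (a : Fin 12) (h : ¬ (i.val = T ∧ a = 8)) :
    l1 T (rpt T (.inl (i, a))) < 0 := by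
  obtain ⟨h1, h2, h3, h4, h5, h6⟩ := pxyR a
  have hT : (0 : ℝ) ≤ T := Nat.cast_nonneg T
  simp only [l1, rpt]
  by_cases hi : i.val = T
  · have ha : a ≠ 8 := fun h' => h ⟨hi, h'⟩
    have := h5 ha
    rw [hi]
    nlinarith
  · have hlt : i.val + 1 ≤ T := by have := i.isLt; omega
    have hlt' : (i.val : ℝ) + 1 ≤ T := by exact_mod_cast hlt
    nlinarith

lemma l1_Z {T : ℕ} (i : Fin (T + 1)) (hi : i.val = T) : l1 T (rpt T (.inl (i, 8))) = 0 := by
  simp only [l1, rpt, px8, py8, hi]; ring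

lemma l1_A {T : ℕ} (x : Unit) : l1 T (rpt T (.inr x)) = 0 := by
  simp only [l1, rpt]; ring

lemma l1_nonpos {T : ℕ} (i : Fin (T + 1)) (a : Fin 12) : l1 T (rpt T (.inl (i, a))) ≤ 0 := by
  by_cases h : i.val = T ∧ a = 8
  · obtain ⟨h1, rfl⟩ := h
    rw [l1_Z i h1]
  · exact (l1_neg i a h).le

lemma l2_neg {T : ℕ} (i : Fin (T + 1)) (a : Fin 12) (h : ¬ (i = 0 ∧ a = 0)) :
    l2 (rpt T (.inl (i, a))) < 0 := by
  obtain ⟨h1, h2, h3, h4, h5, h6⟩ := pxyR a
  simp only [l2, rpt]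
  by_cases hi : i = 0
  · have ha : a ≠ 0 := fun h' => h ⟨hi, h'⟩
    have := h6 ha
    have h0 : (0 : ℝ) ≤ (i.val : ℝ) := Nat.cast_nonneg _
    linarith
  · have hlt : 1 ≤ i.val := by
      rcases Nat.eq_zero_or_pos i.val with h0 | h0
      · exact absurd (Fin.ext h0) hi
      · exact h0
    have hlt' : (1 : ℝ) ≤ (i.val : ℝ) := by exact_mod_cast hlt
    linarith

lemma l2_O {T : ℕ} : l2 (rpt T (.inl (0, 0))) = 0 := by
  simp only [l2, rpt, px0, py0]
  simp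

lemma l2_A {T : ℕ} (x : Unit) : l2 (rpt T (.inr x)) = 0 := by
  simp only [l2, rpt]; ring

lemma l2_nonpos {T : ℕ} (i : Fin (T + 1)) (a : Fin 12) : l2 (rpt T (.inl (i, a))) ≤ 0 := by
  by_cases h : i = 0 ∧ a = 0
  · obtain ⟨rfl, rfl⟩ := h
    rw [l2_O]
  · exact (l2_neg i a h).le

lemma rpt_inj (T : ℕ) : Function.Injective (rpt T) := by
  rintro (⟨i, a⟩ | x) (⟨j, b⟩ | y) h
  · simp only [rpt, Prod.mk.injEq] at h
    obtain ⟨hx, hy⟩ := h
    obtain ⟨h1, h2, -⟩ := pxy a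
    obtain ⟨h3, h4, -⟩ := pxy b
    have hx' : 10 * (i.val : ℤ) + px a = 10 * (j.val : ℤ) + px b := by exact_mod_cast hx
    have hij : i.val = j.val := by omega
    have hxx : px a = px b := by omega
    have hyy : py a = py b := by exact_mod_cast hy
    have hp : ∀ u v : Fin 12, px u = px v → py u = py v → u = v := by decide +kernel
    rw [Fin.ext hij, hp a b hxx hyy]
  · exfalso
    simp only [rpt, Prod.mk.injEq] at h
    obtain ⟨-, -, -, h4, -⟩ := pxyR a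
    have hT : (0 : ℝ) ≤ T := Nat.cast_nonneg T
    linarith [h.2]
  · exfalso
    simp only [rpt, Prod.mk.injEq] at h
    obtain ⟨-, -, -, h4, -⟩ := pxyR b
    have hT : (0 : ℝ) ≤ T := Nat.cast_nonneg T
    linarith [h.2]
  · rfl

lemma lin_zero (p q : ℝ × ℝ) : lin p q 0 = p := by simp [lin]
lemma lin_one (p q : ℝ × ℝ) : lin p q 1 = q := by simp [lin]

lemma lin_inj {p q : ℝ × ℝ} (hpq : p ≠ q) {s t : ℝ} (h : lin p q s = lin p q t) : s = t := by
  by_contra hst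
  simp only [lin, Prod.mk.injEq] at h
  apply hpq
  have h1 : (s - t) * (q.1 - p.1) = 0 := by linarith [h.1]
  have h2 : (s - t) * (q.2 - p.2) = 0 := by linarith [h.2]
  have h3 : q.1 - p.1 = 0 := by
    rcases mul_eq_zero.1 h1 with h | h
    · exact absurd (sub_eq_zero.1 h) hst
    · exact h
  have h4 : q.2 - p.2 = 0 := by
    rcases mul_eq_zero.1 h2 with h | h
    · exact absurd (sub_eq_zero.1 h) hst
    · exact h
  exact Prod.ext (by linarith) (by linarith)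

lemma lin_same {T : ℕ} (i : Fin (T + 1)) (a b : Fin 12) (s : ℝ) :
    lin (rpt T (.inl (i, a))) (rpt T (.inl (i, b))) s =
      (10 * (i.val : ℝ) + (seg a b s).1, (seg a b s).2) := by
  simp only [lin, rpt, seg, Prod.mk.injEq]
  exact ⟨by ring, trivial⟩

/-- the two kinds of low arcs and the two other arcs: what we know of an interior point -/
inductive Kind (T : ℕ) : RV T → RV T → ℝ × ℝ → Prop
  | inner (i : Fin (T + 1)) (a b : Fin 12) (hab : adj a b) (s : ℝ) (hs : s ∈ Set.Ioo (0 : ℝ) 1)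
      (P : ℝ × ℝ) (hP : P = (10 * (i.val : ℝ) + (seg a b s).1, (seg a b s).2))
      (hx0 : 10 * (i.val : ℝ) ≤ P.1) (hx1 : P.1 ≤ 10 * (i.val : ℝ) + 6) (hy : P.2 ≤ 9)
      (h1 : l1 T P < 0) (h2 : l2 P < 0) : Kind T (.inl (i, a)) (.inl (i, b)) P
  | link (i j : Fin (T + 1)) (hij : i.val + 1 = j.val) (P : ℝ × ℝ)
      (hx0 : 10 * (i.val : ℝ) + 6 < P.1) (hx1 : P.1 < 10 * (i.val : ℝ) + 10) (hy : P.2 ≤ 9)
      (h1 : l1 T P < 0) (h2 : l2 P < 0) : Kind T (.inl (i, 8)) (.inl (j, 0)) P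
  | up (i : Fin (T + 1)) (hi : i.val = T) (P : ℝ × ℝ) (h1 : l1 T P = 0)
      (hx0 : 5 * ((T : ℝ) + 1) < P.1) (hx1 : P.1 < 10 * (T : ℝ) + 6)
      (hy : P.2 < 50 * ((T : ℝ) + 1)) : Kind T (.inl (i, 8)) (.inr ()) P
  | down (P : ℝ × ℝ) (h2 : l2 P = 0) (hx0 : 0 < P.1)
      (hx1 : P.1 < 5 * ((T : ℝ) + 1)) (hy : P.2 < 50 * ((T : ℝ) + 1)) :
      Kind T (.inr ()) (.inl (0, 0)) P

lemma comb_neg {x y s : ℝ} (hs : s ∈ Set.Ioo (0 : ℝ) 1) (hx : x ≤ 0) (hy : y ≤ 0)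
    (hxy : x < 0 ∨ y < 0) : (1 - s) * x + s * y < 0 := by
  obtain ⟨h0, h1⟩ := hs
  rcases hxy with h | h
  · have := mul_neg_of_pos_of_neg (sub_pos.2 h1) h
    have := mul_nonpos_of_nonneg_of_nonpos h0.le hy
    linarith
  · have := mul_neg_of_pos_of_neg h0 h
    have := mul_nonpos_of_nonneg_of_nonpos (sub_pos.2 h1).le hx
    linarith

lemma kind {T : ℕ} {u v : RV T} (huv : ring T u v) {s : ℝ} (hs : s ∈ Set.Ioo (0 : ℝ) 1) :
    Kind T u v (lin (rpt T u) (rpt T v) s) := by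
  have hT : (0 : ℝ) ≤ T := Nat.cast_nonneg T
  obtain ⟨h0, h1⟩ := hs
  rcases u with ⟨i, a⟩ | x <;> rcases v with ⟨j, b⟩ | y
  · rcases huv with ⟨rfl, hab⟩ | ⟨hij, rfl, rfl⟩
    · have hne : a ≠ b := adj_ne hab
      obtain ⟨a1, a2, a3, a4, a5, a6⟩ := pxyR a
      obtain ⟨b1, b2, b3, b4, b5, b6⟩ := pxyR b
      refine Kind.inner i a b hab s ⟨h0, h1⟩ _ (lin_same i a b s) ?_ ?_ ?_ ?_ ?_
      · simp only [lin, rpt]; nlinarith
      · simp only [lin, rpt]; nlinarith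
      · simp only [lin, rpt]; nlinarith
      · rw [l1_lin]
        refine comb_neg ⟨h0, h1⟩ (l1_nonpos i a) (l1_nonpos i b) ?_
        by_cases ha : a = 8
        · right
          apply l1_neg
          rintro ⟨-, hb⟩
          exact hne (ha.trans hb.symm)
        · left
          apply l1_neg
          rintro ⟨-, ha'⟩
          exact ha ha'
      · rw [l2_lin]
        refine comb_neg ⟨h0, h1⟩ (l2_nonpos i a) (l2_nonpos i b) ?_
        by_cases ha : a = 0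
        · right
          apply l2_neg
          rintro ⟨-, hb⟩
          exact hne (ha.trans hb.symm)
        · left
          apply l2_neg
          rintro ⟨-, ha'⟩
          exact ha ha'
    · have hj : (j.val : ℝ) = (i.val : ℝ) + 1 := by exact_mod_cast hij.symm
      refine Kind.link i j hij _ ?_ ?_ ?_ ?_ ?_
      · simp only [lin, rpt, px8, px0, hj]; nlinarith
      · simp only [lin, rpt, px8, px0, hj]; nlinarith
      · simp only [lin, rpt, py8, py0]; nlinarith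
      · rw [l1_lin]
        refine comb_neg ⟨h0, h1⟩ (l1_nonpos i 8) (l1_nonpos j 0) ?_
        right
        apply l1_neg
        rintro ⟨-, hb⟩
        exact absurd hb (by decide)
      · rw [l2_lin]
        refine comb_neg ⟨h0, h1⟩ (l2_nonpos i 8) (l2_nonpos j 0) ?_
        left
        apply l2_neg
        rintro ⟨-, hb⟩
        exact absurd hb (by decide)
  · obtain ⟨hi, rfl⟩ := huv
    refine Kind.up i hi _ ?_ ?_ ?_ ?_
    · rw [l1_lin, l1_Z i hi, l1_A]; ring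
    · simp only [lin, rpt, px8, hi]; nlinarith
    · simp only [lin, rpt, px8, hi]; nlinarith
    · simp only [lin, rpt, py8, hi]; nlinarith
  · obtain ⟨rfl, rfl⟩ := huv
    refine Kind.down _ ?_ ?_ ?_ ?_
    · rw [l2_lin, l2_A, l2_O]; ring
    · simp only [lin, rpt, px0]
      simp only [Fin.val_zero, Nat.cast_zero]
      nlinarith
    · simp only [lin, rpt, px0]
      simp only [Fin.val_zero, Nat.cast_zero]
      nlinarith
    · simp only [lin, rpt, py0]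
      nlinarith
  · exact absurd huv id

end Pool.Agent.J6H40.FVS
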