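import Pool.Agent.J6H40.FVS.Cyc

/-!
# Subdividing the arcs of a feedback arc set

`Cert t g adj src dst κ` collects what we need about a planar oriented graph with a marked family
of arcs `src f → dst f` (a feedback arc set); `Cert.step` subdivides all marked arcs once and
raises `g` by one.
-/

set_option autoImplicit false

namespace Pool.Agent.J6H40.FVS

open Pool.Agent.Results.MP_fa4488_co.DigirthFive

/-- A planar oriented graph with a marked feedback arc set and certificates. -/
structure Cert {V Φ : Type} (t g : ℕ) (adj : V → V → Prop) (src dst : Φ → V)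
    (κ : V → Option (Fin t)) : Prop where
  arc : ∀ f, adj (src f) (dst f)
  pinj : ∀ f f', src f = src f' → dst f = dst f' → f = f'
  oriented : IsOriented adj
  planar : IsPlanar adj
  strong : ∀ u v, Relation.ReflTransGen adj u v
  psi : ∃ ψ : V → ℤ, ∀ u v, adj u v → (∃ f, src f = u ∧ dst f = v) ∨ ψ u < ψ v
  phi : ∀ f, ∃ φ : V → ℤ, (∀ u v, adj u v → ¬ (src f = u ∧ dst f = v) → φ v ≤ φ u + 1) ∧
    φ (dst f) + g ≤ φ (src f) + 1
  wk : ∃ f, Walk (fun u v => adj u v ∧ ¬ ∃ f, src f = u ∧ dst f = v) (g - 1) (dst f) (src f)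
  cyc : ∀ i x y, ∃ v, Relation.TransGen (fun a b => adj a b ∧ (κ a = some i ∧ κ b = some i) ∧
      (a ≠ x ∧ a ≠ y) ∧ (b ≠ x ∧ b ≠ y)) v v

section sub

variable {V Φ : Type} (adj : V → V → Prop) (src dst : Φ → V)

/-- The graph with all the arcs `src f → dst f` subdivided once. -/
def sub : V ⊕ Φ → V ⊕ Φ → Prop
  | .inl u, .inl v => adj u v ∧ ¬ ∃ f, src f = u ∧ dst f = v
  | .inl u, .inr f => src f = u
  | .inr f, .inl v => dst f = v
  | .inr _, .inr _ => False

/-- The curves of the subdivided drawing. -/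
noncomputable def subCrv (crv : V → V → ℝ → ℝ × ℝ) : V ⊕ Φ → V ⊕ Φ → ℝ → ℝ × ℝ
  | .inl u, .inl v => crv u v
  | .inl _, .inr f => fun s => crv (src f) (dst f) (s / 2)
  | .inr f, .inl _ => fun s => crv (src f) (dst f) ((1 + s) / 2)
  | .inr _, .inr _ => fun _ => 0

variable {adj src dst}

/-- The subdivided drawing. -/
noncomputable def subDrawing (D : PlaneDrawing adj) (harc : ∀ f, adj (src f) (dst f))
    (pinj : ∀ f f', src f = src f' → dst f = dst f' → f = f') :
    PlaneDrawing (sub adj src dst) where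
  pt := Sum.elim D.pt (fun f => D.crv (src f) (dst f) (1 / 2))
  crv := subCrv src dst D.crv
  pt_inj := by
    rintro (u | f) (v | h) huv
    · simp only [Sum.elim_inl] at huv
      rw [D.pt_inj huv]
    · simp only [Sum.elim_inl, Sum.elim_inr] at huv
      exact absurd huv.symm (D.avoid _ _ _ (harc h) (1 / 2) ⟨by norm_num, by norm_num⟩)
    · simp only [Sum.elim_inl, Sum.elim_inr] at huv
      exact absurd huv (D.avoid _ _ _ (harc f) (1 / 2) ⟨by norm_num, by norm_num⟩)
    · simp only [Sum.elim_inr] at huv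
      by_cases hfh : f = h
      · rw [hfh]
      · exfalso
        refine D.disj _ _ _ _ (harc f) (harc h) ?_ (1 / 2) ⟨by norm_num, by norm_num⟩
          (1 / 2) ⟨by norm_num, by norm_num⟩ huv
        intro heq
        rw [Prod.mk.injEq] at heq
        exact hfh (pinj _ _ heq.1 heq.2)
  cont := by
    rintro (u | f) (v | h) huv
    · exact D.cont _ _ huv.1
    · have hc := D.cont _ _ (harc h)
      show ContinuousOn (fun s => D.crv (src h) (dst h) (s / 2)) _
      refine hc.comp (by fun_prop) ?_
      intro s hs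
      exact ⟨by linarith [hs.1], by linarith [hs.2]⟩
    · have hc := D.cont _ _ (harc f)
      show ContinuousOn (fun s => D.crv (src f) (dst f) ((1 + s) / 2)) _
      refine hc.comp (by fun_prop) ?_
      intro s hs
      exact ⟨by linarith [hs.1], by linarith [hs.2]⟩
    · exact absurd huv id
  inj := by
    rintro (u | f) (v | h) huv
    · exact D.inj _ _ huv.1
    · intro s hs s' hs' hss
      have := D.inj _ _ (harc h) (x₁ := s / 2) ⟨by linarith [hs.1], by linarith [hs.2]⟩
        (x₂ := s' / 2) ⟨by linarith [hs'.1], by linarith [hs'.2]⟩ hss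
      linarith
    · intro s hs s' hs' hss
      have := D.inj _ _ (harc f) (x₁ := (1 + s) / 2) ⟨by linarith [hs.1], by linarith [hs.2]⟩
        (x₂ := (1 + s') / 2) ⟨by linarith [hs'.1], by linarith [hs'.2]⟩ hss
      linarith
    · exact absurd huv id
  src := by
    rintro (u | f) (v | h) huv
    · exact D.src _ _ huv.1
    · show D.crv (src h) (dst h) (0 / 2) = D.pt u
      have h1 : src h = u := huv
      rw [zero_div, D.src _ _ (harc h), h1]
    · show D.crv (src f) (dst f) ((1 + 0) / 2) = D.crv (src f) (dst f) (1 / 2)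
      norm_num
    · exact absurd huv id
  tgt := by
    rintro (u | f) (v | h) huv
    · exact D.tgt _ _ huv.1
    · rfl
    · show D.crv (src f) (dst f) ((1 + 1) / 2) = D.pt v
      have h1 : dst f = v := huv
      norm_num
      rw [D.tgt _ _ (harc f), h1]
    · exact absurd huv id
  avoid := by
    rintro (u | f) (v | h) (w | e) huv s hs
    · exact D.avoid _ _ _ huv.1 s hs
    · refine D.disj _ _ _ _ huv.1 (harc e) ?_ s hs (1 / 2) ⟨by norm_num, by norm_num⟩
      intro heq
      rw [Prod.mk.injEq] at heq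
      exact huv.2 ⟨e, heq.1.symm, heq.2.symm⟩
    · exact D.avoid _ _ _ (harc h) (s / 2) ⟨by linarith [hs.1], by linarith [hs.2]⟩
    · show D.crv (src h) (dst h) (s / 2) ≠ D.crv (src e) (dst e) (1 / 2)
      by_cases he : h = e
      · subst he
        intro heq
        have := D.inj _ _ (harc h) (x₁ := s / 2) ⟨by linarith [hs.1], by linarith [hs.2]⟩
          (x₂ := 1 / 2) ⟨by norm_num, by norm_num⟩ heq
        linarith [hs.2]
      · refine D.disj _ _ _ _ (harc h) (harc e) ?_ _ ⟨by linarith [hs.1], by linarith [hs.2]⟩ _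
          ⟨by norm_num, by norm_num⟩
        intro heq
        rw [Prod.mk.injEq] at heq
        exact he (pinj _ _ heq.1 heq.2)
    · exact D.avoid _ _ _ (harc f) ((1 + s) / 2) ⟨by linarith [hs.1], by linarith [hs.2]⟩
    · show D.crv (src f) (dst f) ((1 + s) / 2) ≠ D.crv (src e) (dst e) (1 / 2)
      by_cases he : f = e
      · subst he
        intro heq
        have := D.inj _ _ (harc f) (x₁ := (1 + s) / 2) ⟨by linarith [hs.1], by linarith [hs.2]⟩
          (x₂ := 1 / 2) ⟨by norm_num, by norm_num⟩ heq
        linarith [hs.1]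
      · refine D.disj _ _ _ _ (harc f) (harc e) ?_ _ ⟨by linarith [hs.1], by linarith [hs.2]⟩ _
          ⟨by norm_num, by norm_num⟩
        intro heq
        rw [Prod.mk.injEq] at heq
        exact he (pinj _ _ heq.1 heq.2)
    · exact absurd huv id
    · exact absurd huv id
  disj := by
    have half : ∀ e e' : Φ, ∀ a b : ℝ, a ∈ Set.Ioo (0 : ℝ) 1 → b ∈ Set.Ioo (0 : ℝ) 1 →
        (e = e' → a ≠ b) → D.crv (src e) (dst e) a ≠ D.crv (src e') (dst e') b := by
      intro e e' a b ha hb hne
      by_cases he : e = e'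
      · subst he
        intro heq
        exact hne rfl (D.inj _ _ (harc e) ⟨ha.1.le, ha.2.le⟩ ⟨hb.1.le, hb.2.le⟩ heq)
      · refine D.disj _ _ _ _ (harc e) (harc e') ?_ _ ha _ hb
        intro heq
        rw [Prod.mk.injEq] at heq
        exact he (pinj _ _ heq.1 heq.2)
    rintro (u | f) (v | h) (u' | f') (v' | h') huv huv' hne s hs s' hs'
    · refine D.disj _ _ _ _ huv.1 huv'.1 ?_ s hs s' hs'
      intro heq
      rw [Prod.mk.injEq] at heq
      exact hne (by rw [heq.1, heq.2])
    · refine D.disj _ _ _ _ huv.1 (harc h') ?_ s hs (s' / 2)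
        ⟨by linarith [hs'.1], by linarith [hs'.2]⟩
      intro heq
      rw [Prod.mk.injEq] at heq
      exact huv.2 ⟨h', heq.1.symm, heq.2.symm⟩
    · refine D.disj _ _ _ _ huv.1 (harc f') ?_ s hs ((1 + s') / 2)
        ⟨by linarith [hs'.1], by linarith [hs'.2]⟩
      intro heq
      rw [Prod.mk.injEq] at heq
      exact huv.2 ⟨f', heq.1.symm, heq.2.symm⟩
    · exact absurd huv' id
    · refine D.disj _ _ _ _ (harc h) huv'.1 ?_ (s / 2)
        ⟨by linarith [hs.1], by linarith [hs.2]⟩ s' hs'
      intro heq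
      rw [Prod.mk.injEq] at heq
      exact huv'.2 ⟨h, heq.1, heq.2⟩
    · apply half _ _ _ _ ⟨by linarith [hs.1], by linarith [hs.2]⟩
        ⟨by linarith [hs'.1], by linarith [hs'.2]⟩
      rintro rfl
      exfalso
      have h1 : src h = u := huv
      have h2 : src h = u' := huv'
      exact hne (by rw [← h1, ← h2])
    · apply half _ _ _ _ ⟨by linarith [hs.1], by linarith [hs.2]⟩
        ⟨by linarith [hs'.1], by linarith [hs'.2]⟩
      rintro rfl h2
      linarith [hs.2, hs'.1]
    · exact absurd huv' id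
    · refine D.disj _ _ _ _ (harc f) huv'.1 ?_ ((1 + s) / 2)
        ⟨by linarith [hs.1], by linarith [hs.2]⟩ s' hs'
      intro heq
      rw [Prod.mk.injEq] at heq
      exact huv'.2 ⟨f, heq.1, heq.2⟩
    · apply half _ _ _ _ ⟨by linarith [hs.1], by linarith [hs.2]⟩
        ⟨by linarith [hs'.1], by linarith [hs'.2]⟩
      rintro rfl h2
      linarith [hs.1, hs'.2]
    · apply half _ _ _ _ ⟨by linarith [hs.1], by linarith [hs.2]⟩
        ⟨by linarith [hs'.1], by linarith [hs'.2]⟩
      rintro rfl
      exfalso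
      have h1 : dst f = v := huv
      have h2 : dst f = v' := huv'
      exact hne (by rw [← h1, ← h2])
    · exact absurd huv' id
    · exact absurd huv id
    · exact absurd huv id
    · exact absurd huv id
    · exact absurd huv id

/-- The marked arcs after a subdivision. -/
def src' : Φ → V ⊕ Φ := Sum.inr

/-- The heads of the marked arcs after a subdivision. -/
def dst' (dst : Φ → V) : Φ → V ⊕ Φ := fun f => Sum.inl (dst f)

/-- The parts after a subdivision. -/
def kap' {t : ℕ} (src : Φ → V) (κ : V → Option (Fin t)) : V ⊕ Φ → Option (Fin t) :=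
  Sum.elim κ (fun f => κ (src f))

theorem Cert.step {t g : ℕ} (hg : 1 ≤ g) {κ : V → Option (Fin t)}
    (C : Cert t g adj src dst κ) :
    Cert t (g + 1) (sub adj src dst) (src' (V := V)) (dst' dst) (kap' src κ) := by
  have hne : ∀ f, src f ≠ dst f := by
    intro f h
    have h1 := C.arc f
    have h2 := C.oriented _ _ h1
    rw [← h] at h1 h2
    exact h2 h1
  have lift : ∀ u v, adj u v → Relation.TransGen (sub adj src dst) (.inl u) (.inl v) := by
    intro u v huv
    by_cases hf : ∃ f, src f = u ∧ dst f = v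
    · obtain ⟨f, h1, h2⟩ := hf
      exact Relation.TransGen.tail (Relation.TransGen.single
        (show sub adj src dst (.inl u) (.inr f) from h1)) (show sub adj src dst (.inr f) (.inl v) from h2)
    · exact Relation.TransGen.single ⟨huv, hf⟩
  have liftR : ∀ u v, Relation.ReflTransGen adj u v →
      Relation.ReflTransGen (sub adj src dst) (.inl u) (.inl v) := by
    intro u v h
    induction h with
    | refl => exact Relation.ReflTransGen.refl
    | tail _ h2 ih => exact ih.trans (lift _ _ h2).to_reflTransGen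
  refine ⟨fun f => rfl, ?_, ?_, ?_, ?_, ?_, ?_, ?_, ?_⟩
  · intro f f' h _
    exact Sum.inr_injective h
  · rintro (u | f) (v | h) huv
    · intro h2; exact C.oriented _ _ huv.1 h2.1
    · intro h2
      have h1 : src h = u := huv
      have h3 : dst h = u := h2
      exact hne h (h1.trans h3.symm)
    · intro h2
      have h1 : dst f = v := huv
      have h3 : src f = v := h2
      exact hne f (h3.trans h1.symm)
    · exact absurd huv id
  · obtain ⟨D⟩ := C.planar
    exact ⟨subDrawing D C.arc C.pinj⟩
  · rintro (u | f) (v | h)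
    · exact liftR _ _ (C.strong u v)
    · exact (liftR _ _ (C.strong u (src h))).tail (show sub adj src dst _ (.inr h) from rfl)
    · exact Relation.ReflTransGen.head (show sub adj src dst (.inr f) (.inl (dst f)) from rfl)
        (liftR _ _ (C.strong (dst f) v))
    · exact Relation.ReflTransGen.head (show sub adj src dst (.inr f) (.inl (dst f)) from rfl)
        ((liftR _ _ (C.strong (dst f) (src h))).tail (show sub adj src dst _ (.inr h) from rfl))
  · obtain ⟨ψ, hψ⟩ := C.psi
    refine ⟨Sum.elim ψ (fun f => ψ (src f) + 1), ?_⟩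
    rintro (u | f) (v | h) huv
    · right
      rcases hψ _ _ huv.1 with h1 | h1
      · exact absurd h1 huv.2
      · exact h1
    · right
      have h1 : src h = u := huv
      simp only [Sum.elim_inl, Sum.elim_inr, h1]
      omega
    · left
      have h1 : dst f = v := huv
      exact ⟨f, rfl, by rw [← h1]; rfl⟩
    · exact absurd huv id
  · intro f
    obtain ⟨φ, h1, h2⟩ := C.phi f
    refine ⟨Sum.elim φ (fun h => φ (src h) + 1), ?_, ?_⟩
    · rintro (u | e) (v | h) huv hn
      · apply h1 _ _ huv.1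
        intro h3
        exact huv.2 ⟨f, h3⟩
      · have h3 : src h = u := huv
        simp only [Sum.elim_inl, Sum.elim_inr, h3, le_refl]
      · have h3 : dst e = v := huv
        simp only [Sum.elim_inl, Sum.elim_inr]
        have hef : ¬ (src f = src e ∧ dst f = dst e) := by
          rintro ⟨h4, h5⟩
          apply hn
          have := C.pinj _ _ h4 h5
          subst this
          exact ⟨rfl, by rw [← h3]; rfl⟩
        have h4 := h1 _ _ (C.arc e) hef
        rw [← h3]
        omega
      · exact absurd huv id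
    · show φ (dst f) + ((g + 1 : ℕ) : ℤ) ≤ (φ (src f) + 1) + 1
      push_cast
      linarith
  · obtain ⟨f, hw⟩ := C.wk
    refine ⟨f, ?_⟩
    have h1 : Walk (fun u v => sub adj src dst u v ∧
        ¬ ∃ f, src' (V := V) f = u ∧ dst' dst f = v) (g - 1) (.inl (dst f)) (.inl (src f)) := by
      refine hw.map (Sum.inl : V → V ⊕ Φ) ?_
      intro a b hab
      refine ⟨hab, ?_⟩
      rintro ⟨e, he, -⟩
      exact absurd he (by simp [src'])
    have h2 := h1.snoc (w := (.inr f : V ⊕ Φ)) ⟨rfl, by
      rintro ⟨e, he, -⟩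
      exact absurd he (by simp [src'])⟩
    have h3 : g - 1 + 1 = g + 1 - 1 := by omega
    rw [h3] at h2
    exact h2
  · intro i x y
    set π : V ⊕ Φ → V := Sum.elim id src with hπ
    obtain ⟨v, hv⟩ := C.cyc i (π x) (π y)
    refine ⟨.inl v, ?_⟩
    have hinl : ∀ a z, a ≠ π z → (Sum.inl a : V ⊕ Φ) ≠ z := by
      intro a z h1 h2
      rw [← h2] at h1
      exact h1 rfl
    have hinr : ∀ f z, src f ≠ π z → (Sum.inr f : V ⊕ Φ) ≠ z := by
      intro a z h1 h2
      rw [← h2] at h1
      exact h1 rfl
    have key : ∀ a b, (adj a b ∧ (κ a = some i ∧ κ b = some i) ∧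
        (a ≠ π x ∧ a ≠ π y) ∧ (b ≠ π x ∧ b ≠ π y)) →
        Relation.TransGen (fun a b => sub adj src dst a b ∧
          (kap' src κ a = some i ∧ kap' src κ b = some i) ∧
          (a ≠ x ∧ a ≠ y) ∧ (b ≠ x ∧ b ≠ y)) (.inl a) (.inl b) := by
      rintro a b ⟨h1, ⟨h2, h3⟩, ⟨h4, h5⟩, h6, h7⟩
      by_cases hf : ∃ f, src f = a ∧ dst f = b
      · obtain ⟨f, h8, h9⟩ := hf
        refine Relation.TransGen.tail (Relation.TransGen.single
          ⟨show sub adj src dst (.inl a) (.inr f) from h8,
            ⟨h2, ?_⟩, ⟨hinl _ _ h4, hinl _ _ h5⟩, hinr _ _ ?_, hinr _ _ ?_⟩)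
          ⟨show sub adj src dst (.inr f) (.inl b) from h9,
            ⟨?_, h3⟩, ⟨hinr _ _ ?_, hinr _ _ ?_⟩, hinl _ _ h6, hinl _ _ h7⟩
        · show κ (src f) = some i; rw [h8]; exact h2
        · rw [h8]; exact h4
        · rw [h8]; exact h5
        · show κ (src f) = some i; rw [h8]; exact h2
        · rw [h8]; exact h4
        · rw [h8]; exact h5
      · exact Relation.TransGen.single
          ⟨⟨h1, hf⟩, ⟨h2, h3⟩, ⟨hinl _ _ h4, hinl _ _ h5⟩, hinl _ _ h6, hinl _ _ h7⟩
    have key2 : ∀ a b, Relation.TransGen (fun a b => adj a b ∧ (κ a = some i ∧ κ b = some i) ∧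
        (a ≠ π x ∧ a ≠ π y) ∧ (b ≠ π x ∧ b ≠ π y)) a b →
        Relation.TransGen (fun a b => sub adj src dst a b ∧
          (kap' src κ a = some i ∧ kap' src κ b = some i) ∧
          (a ≠ x ∧ a ≠ y) ∧ (b ≠ x ∧ b ≠ y)) (.inl a) (.inl b) := by
      intro a b h
      induction h with
      | single h => exact key _ _ h
      | tail _ h2 ih => exact ih.trans (key _ _ h2)
    exact key2 _ _ hv

theorem numArcs_sub [Finite V] [Fintype Φ] (harc : ∀ f, adj (src f) (dst f))
    (pinj : ∀ f f', src f = src f' → dst f = dst f' → f = f') :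
    numArcs (sub adj src dst) ≤ numArcs adj + Fintype.card Φ := by
  classical
  have : Fintype V := Fintype.ofFinite V
  unfold numArcs
  set A : Set (V × V) := {p | adj p.1 p.2}
  set B : Set ((V ⊕ Φ) × (V ⊕ Φ)) := {p | sub adj src dst p.1 p.2}
  let F : (V ⊕ Φ) × (V ⊕ Φ) → (V × V) ⊕ Φ := fun p => match p with
    | (.inl u, .inl v) => .inl (u, v)
    | (.inl _, .inr f) => .inl (src f, dst f)
    | (.inr f, _) => .inr f
  have h1 : (F '' B) ⊆ (Sum.inl '' A) ∪ (Set.range Sum.inr) := by
    rintro _ ⟨⟨(u | f), (v | h)⟩, hp, rfl⟩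
    · left; exact ⟨(u, v), hp.1, rfl⟩
    · left; exact ⟨(src h, dst h), harc h, rfl⟩
    · right; exact ⟨f, rfl⟩
    · right; exact ⟨f, rfl⟩
  have h2 : Set.InjOn F B := by
    rintro ⟨(u | f), (v | h)⟩ hp ⟨(u' | f'), (v' | h')⟩ hp' heq
    · simp only [F, Sum.inl.injEq, Prod.mk.injEq] at heq
      rw [heq.1, heq.2]
    · exfalso
      simp only [F, Sum.inl.injEq, Prod.mk.injEq] at heq
      exact hp.2 ⟨h', heq.1.symm, heq.2.symm⟩
    · simp [F] at heq
    · simp [F] at heq
    · exfalso
      simp only [F, Sum.inl.injEq, Prod.mk.injEq] at heq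
      exact hp'.2 ⟨h, heq.1, heq.2⟩
    · simp only [F, Sum.inl.injEq, Prod.mk.injEq] at heq
      have h3 := pinj _ _ heq.1 heq.2
      subst h3
      have h4 : src h = u := hp
      have h5 : src h = u' := hp'
      rw [← h4, ← h5]
    · simp [F] at heq
    · simp [F] at heq
    · simp [F] at heq
    · simp [F] at heq
    · simp only [F, Sum.inr.injEq] at heq
      subst heq
      have h4 : dst f = v := hp
      have h5 : dst f = v' := hp'
      rw [← h4, ← h5]
    · exact absurd hp' id
    · simp [F] at heq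
    · simp [F] at heq
    · exact absurd hp id
    · exact absurd hp id
  rw [← h2.ncard_image]
  refine (Set.ncard_le_ncard h1 (Set.toFinite _)).trans ((Set.ncard_union_le _ _).trans ?_)
  apply add_le_add
  · exact Set.ncard_image_le (Set.toFinite _)
  · rw [← Set.image_univ]
    refine (Set.ncard_image_le (Set.toFinite _)).trans ?_
    rw [Set.ncard_univ, Nat.card_eq_fintype_card]

end sub

end Pool.Agent.J6H40.FVS
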